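import Mathlib

namespace Pool.Agent.Results.MP_4d07cf_an.NotAlgebrable

open Set Filter Topology

/-- `f` is `n` times differentiable at every point. -/
def Cn (n : ℕ) (f : ℝ → ℝ) : Prop := ∀ k < n, Differentiable ℝ (deriv^[k] f)

/-- At every point and for every exponent the upper limit of the Hölder quotient is infinite. -/
def NowhereHolder (g : ℝ → ℝ) : Prop :=
  ∀ x : ℝ, ∀ α : ℝ, 0 < α → ∀ M : ℝ, ∃ᶠ y in 𝓝[≠] x, M < |g y - g x| / |y - x| ^ α

/-- The set `𝒜_n`. -/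
def An (n : ℕ) : Set (ℝ → ℝ) := {f | Cn n f ∧ NowhereHolder (deriv^[n] f)}

/-- Strong `κ`-algebrability in the algebra of all real functions. -/
def StronglyAlgebrable (κ : Cardinal) (A : Set (ℝ → ℝ)) : Prop :=
  ∃ X : Set (ℝ → ℝ), Cardinal.mk X = κ ∧
    ∀ k : ℕ, 1 ≤ k → ∀ P : MvPolynomial (Fin k) ℝ, P ≠ 0 → MvPolynomial.constantCoeff P = 0 →
      ∀ y : Fin k → (ℝ → ℝ), Function.Injective y → (∀ i, y i ∈ X) →
        MvPolynomial.aeval y P ≠ 0 ∧ MvPolynomial.aeval y P ∈ A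

lemma Cn_succ {n : ℕ} {f : ℝ → ℝ} : Cn (n + 1) f ↔ Differentiable ℝ f ∧ Cn n (deriv f) := by
  constructor
  · intro h
    exact ⟨h 0 (by omega), fun k hk => h (k + 1) (by omega)⟩
  · rintro ⟨h0, h⟩ k hk
    cases k with
    | zero => exact h0
    | succ k => exact h k (by omega)

lemma Cn.mono {n : ℕ} {f : ℝ → ℝ} (h : Cn (n + 1) f) : Cn n f := fun k hk => h k (by omega)

lemma Cn_add : ∀ (n : ℕ) (f g : ℝ → ℝ), Cn n f → Cn n g →
    Cn n (f + g) ∧ deriv^[n] (f + g) = deriv^[n] f + deriv^[n] g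
  | 0, _, _, _, _ => ⟨fun k hk => absurd hk (by omega), rfl⟩
  | n + 1, f, g, hf, hg => by
    rw [Cn_succ] at hf hg ⊢
    have e : deriv (f + g) = deriv f + deriv g := by
      funext x; exact deriv_add (hf.1 x) (hg.1 x)
    have := Cn_add n _ _ hf.2 hg.2
    refine ⟨⟨hf.1.add hg.1, e ▸ this.1⟩, ?_⟩
    simp only [Function.iterate_succ_apply, e, this.2]

lemma dmul {f g : ℝ → ℝ} (hf : Differentiable ℝ f) (hg : Differentiable ℝ g) :
    deriv (f * g) = deriv f * g + f * deriv g := by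
  funext x; exact deriv_mul (hf x) (hg x)

lemma Cn_mul : ∀ (n : ℕ) (f g : ℝ → ℝ), Cn n f → Cn n g → Cn n (f * g)
  | 0, _, _, _, _ => fun k hk => absurd hk (by omega)
  | n + 1, f, g, hf, hg => by
    have hf' := hf.mono
    have hg' := hg.mono
    rw [Cn_succ] at hf hg ⊢
    refine ⟨hf.1.mul hg.1, ?_⟩
    rw [dmul hf.1 hg.1]
    exact (Cn_add n _ _ (Cn_mul n _ _ hf.2 hg') (Cn_mul n _ _ hf' hg.2)).1

lemma leib : ∀ (n : ℕ) (f g : ℝ → ℝ), Cn (n + 1) f → Cn (n + 1) g →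
    ∃ R : ℝ → ℝ, Differentiable ℝ R ∧
      deriv^[n + 1] (f * g) = deriv^[n + 1] f * g + f * deriv^[n + 1] g + R
  | 0, f, g, hf, hg => ⟨0, differentiable_const 0, by
      simpa using dmul (hf 0 (by omega)) (hg 0 (by omega))⟩
  | n + 1, f, g, hf, hg => by
    have hf' := hf.mono
    have hg' := hg.mono
    have hf1 := (Cn_succ.1 hf)
    have hg1 := (Cn_succ.1 hg)
    obtain ⟨R1, h1, e1⟩ := leib n (deriv f) g hf1.2 hg'
    obtain ⟨R2, h2, e2⟩ := leib n f (deriv g) hf' hg1.2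
    refine ⟨R1 + R2 + deriv f * deriv^[n + 1] g + deriv^[n + 1] f * deriv g, ?_, ?_⟩
    · exact ((h1.add h2).add ((hf 1 (by omega)).mul (hg (n + 1) (by omega)))).add
        ((hf (n + 1) (by omega)).mul (hg 1 (by omega)))
    · rw [Function.iterate_succ_apply, dmul hf1.1 hg1.1,
        (Cn_add _ _ _ (Cn_mul _ _ _ hf1.2 hg') (Cn_mul _ _ _ hf' hg1.2)).2, e1, e2,
        Function.iterate_succ_apply deriv (n + 1) f, Function.iterate_succ_apply deriv (n + 1) g]
      ring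

lemma iter_zero (n : ℕ) : deriv^[n] (fun _ : ℝ => (0 : ℝ)) = fun _ => 0 := by
  induction n with
  | zero => rfl
  | succ n ih => rw [Function.iterate_succ_apply, deriv_const', ih]

lemma iter_const (n : ℕ) (c : ℝ) : deriv^[n + 1] (fun _ : ℝ => c) = fun _ => 0 := by
  rw [Function.iterate_succ_apply, deriv_const', iter_zero]

lemma Cn_const (n : ℕ) (c : ℝ) : Cn n (fun _ => c) := by
  intro k _
  cases k with
  | zero => exact differentiable_const c
  | succ k => rw [iter_const]; exact differentiable_const 0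

lemma bdd {h : ℝ → ℝ} (hh : Differentiable ℝ h) :
    ∃ x M : ℝ, ∀ᶠ y in 𝓝 x, |deriv h y| ≤ M := by
  let q : ℕ → ℝ → ℝ := fun k x => (h (x + 1 / ((k : ℝ) + 1)) - h x) / (1 / ((k : ℝ) + 1))
  have hq : ∀ k, Continuous (q k) := fun k => by
    have := hh.continuous
    fun_prop
  have lim : ∀ x, Tendsto (fun k => q k x) atTop (𝓝 (deriv h x)) := by
    intro x
    have h1 := (hasDerivAt_iff_tendsto_slope_zero.1 (hh x).hasDerivAt)
    have h2 : Tendsto (fun k : ℕ => 1 / ((k : ℝ) + 1)) atTop (𝓝[≠] 0) := by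
      refine tendsto_nhdsWithin_iff.2 ⟨tendsto_one_div_add_atTop_nhds_zero_nat, ?_⟩
      exact Eventually.of_forall fun k => by
        simp only [mem_compl_iff, mem_singleton_iff]; positivity
    refine (h1.comp h2).congr fun k => ?_
    simp only [Function.comp, q, smul_eq_mul]; exact (div_eq_inv_mul _ _).symm
  obtain ⟨M, x, hx⟩ := nonempty_interior_of_iUnion_of_closed
    (f := fun M : ℕ => {x : ℝ | ∀ k, |q k x| ≤ M}) (fun M => by
      simp only [ofPred_forall]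
      exact isClosed_iInter fun k => isClosed_le (hq k).abs continuous_const) (by
      rw [eq_univ_iff_forall]
      intro x
      obtain ⟨B, hB⟩ := (lim x).abs.bddAbove_range
      obtain ⟨M, hM⟩ := exists_nat_ge B
      exact mem_iUnion.2 ⟨M, fun k => (hB ⟨k, rfl⟩).trans hM⟩)
  refine ⟨x, M, ?_⟩
  filter_upwards [mem_interior_iff_mem_nhds.1 hx] with y hy
  exact le_of_tendsto' (lim y).abs hy

lemma lip {R : ℝ → ℝ} {x : ℝ} (hR : DifferentiableAt ℝ R x) :
    ∃ K, ∀ᶠ y in 𝓝 x, |R y - R x| ≤ K * |y - x| := by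
  obtain ⟨K, hK⟩ := hR.isBigO_sub.bound
  exact ⟨K, hK⟩

lemma key (n : ℕ) (f : ℝ → ℝ) (hf : Cn (n + 1) f) :
    ∃ c : ℝ, ¬ NowhereHolder (deriv^[n + 1] (f * (f + fun _ => -2 * c))) := by
  obtain ⟨x, M, hM⟩ := bdd (hf n (by omega))
  rw [← Function.iterate_succ_apply' deriv] at hM
  refine ⟨f x, fun H => ?_⟩
  have ha := Cn_add (n + 1) f (fun _ => -2 * f x) hf (Cn_const _ _)
  obtain ⟨R, hR, e⟩ := leib n f _ hf ha.1
  rw [ha.2, iter_const] at e
  obtain ⟨K1, h1⟩ := lip (hR x)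
  obtain ⟨K2, h2⟩ := lip (hf 0 (by omega) x)
  have := H x 1 one_pos (K1 + 2 * M * K2)
  refine this ?_
  filter_upwards [nhdsWithin_le_nhds hM, nhdsWithin_le_nhds h1, nhdsWithin_le_nhds h2,
    self_mem_nhdsWithin] with y hy a b hne
  have hp : 0 < |y - x| := abs_pos.2 (sub_ne_zero.2 hne)
  rw [not_lt, Real.rpow_one, div_le_iff₀ hp, e]
  simp only [Function.iterate_zero, id] at b
  simp only [Pi.add_apply, Pi.mul_apply]
  set D := deriv^[n + 1] f
  have e2 : D y * (f y + -2 * f x) + f y * (D y + 0) + R y -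
      (D x * (f x + -2 * f x) + f x * (D x + 0) + R x) = 2 * (D y * (f y - f x)) + (R y - R x) := by
    ring
  rw [e2]
  have c1 : |D y * (f y - f x)| ≤ M * (K2 * |y - x|) := by
    rw [abs_mul]
    exact mul_le_mul hy b (abs_nonneg _) ((abs_nonneg _).trans hy)
  have c2 := abs_add_le (2 * (D y * (f y - f x))) (R y - R x)
  rw [abs_mul, abs_two] at c2
  nlinarith

theorem result (n : ℕ) (hn : 1 ≤ n) (κ : Cardinal) (hκ : κ ≠ 0) :
    ¬ StronglyAlgebrable κ (An n) := by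
  rintro ⟨X, hX, H⟩
  obtain ⟨n, rfl⟩ : ∃ m, n = m + 1 := ⟨n - 1, by omega⟩
  obtain ⟨⟨f, hfX⟩⟩ : Nonempty X := Cardinal.mk_ne_zero_iff.1 (hX ▸ hκ)
  have inj : Function.Injective fun _ : Fin 1 => f := fun a b _ => Subsingleton.elim a b
  have h1 := (H 1 le_rfl (MvPolynomial.X 0) (MvPolynomial.X_ne_zero _) (by simp) _ inj
    fun _ => hfX).2
  simp only [MvPolynomial.aeval_X] at h1
  obtain ⟨c, hc⟩ := key n f h1.1
  have nz : (MvPolynomial.X 0 * (MvPolynomial.X 0 + MvPolynomial.C (-2 * c)) :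
      MvPolynomial (Fin 1) ℝ) ≠ 0 := by
    refine mul_ne_zero (MvPolynomial.X_ne_zero _) fun h => ?_
    have := congrArg (MvPolynomial.eval fun _ => 2 * c + 1) h
    simp at this
  have h2 := (H 1 le_rfl _ nz (by simp) _ inj fun _ => hfX).2
  apply hc
  have := h2.2
  simp only [map_mul, map_add, MvPolynomial.aeval_X, MvPolynomial.aeval_C] at this
  convert this using 4
  funext t; simp

end Pool.Agent.Results.MP_4d07cf_an.NotAlgebrable
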